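import Pool.Agent.KS6_20.GP.Poly

/-!
# Points on circles and the main contradiction
-/

set_option autoImplicit false

namespace Pool.Agent.KS6_20.GP

open Finset Filter Topology Polynomial
open Pool.Agent.H235R3.PT (PD MeanZero LineZero zero_of_families PD.zero_nonneg lam lam_pos lam_sq
  evenFam U_lower norm_one_add norm_one_sub lineZero)

theorem ev_small {s : ℕ → ℝ} {t : ℕ → ℝ} (ht : Small s t) : ∀ᶠ n : ℕ in atTop, |t n / s n| ≤ 1 := by
  unfold Small at ht
  have h := ht.abs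
  rw [abs_zero] at h
  exact h.eventually (Iic_mem_nhds one_pos)

/-- families `s n * sqrt (1 - τ ^ 2) * W τ`, `τ = t / s n` -/
theorem evenNull {s : ℕ → ℝ} (hs0 : ∀ n, 0 < s n) (hs : Tendsto s atTop atTop)
    {φ : ℂ → ℝ} {v : ℝ} {Ψ : Fam → ℝ} (hG : Good s φ v Ψ) (hL : LineZero φ)
    (W : ℝ[X]) (m : ℕ) (hW : W.natDegree ≤ m)
    (hlow : ∀ x : ℝ, 1 ≤ |x| → |x| ^ m ≤ |W.eval x|) :
    Ψ (fun n t => ((s n * (Real.sqrt (1 - (t / s n) ^ 2) * W.eval (t / s n)) : ℝ) : ℂ)) = 0 := by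
  refine zero_of_families hG.pd _ fun N hN => ?_
  obtain ⟨l, hl, hP⟩ := evenFam W m hW hlow N hN
  refine ⟨fun i n t => (s n : ℂ) * ((W.eval (lam (l i) * (t / s n)) : ℝ) *
    (((l i * (t / s n) : ℝ) : ℂ) + (Real.sqrt (1 - (t / s n) ^ 2) : ℝ) * Complex.I)),
    fun i hi => ?_, fun i hi j hj hij => ?_⟩
  · obtain ⟨h0, h1⟩ := hl i hi
    refine Eq.trans ?_ (hG.scale (lam (l i)) (lam_pos h0 h1) _)
    refine hG.rel _ _ fun t ht => ?_
    filter_upwards [ev_small ht] with n hn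
    have hsn := hs0 n
    set τ := t n / s n with hτ
    have hτ2 : lam (l i) * t n / s n = lam (l i) * τ := by rw [hτ]; ring
    rw [hτ2, norm_mul, norm_mul, Complex.norm_real, Complex.norm_real, Complex.norm_real]
    have hτ1 : τ ^ 2 ≤ 1 := by rw [← sq_abs]; exact pow_le_one₀ (abs_nonneg _) hn
    have hs' : ‖((l i * τ : ℝ) : ℂ) + (Real.sqrt (1 - τ ^ 2) : ℝ) * Complex.I‖
        = Real.sqrt (1 - (lam (l i) * τ) ^ 2) := by
      rw [Complex.norm_add_mul_I]
      congr 1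
      rw [Real.sq_sqrt (by linarith), mul_pow, mul_pow, lam_sq h0 h1]
      ring
    rw [hs', Real.norm_eq_abs, Real.norm_eq_abs, Real.norm_eq_abs, abs_mul, abs_mul,
      abs_of_pos hsn, abs_of_nonneg (Real.sqrt_nonneg _)]
    ring
  · obtain ⟨P, hP1, hP2⟩ := hP i hi j hj hij
    rw [← scaledNull hs0 hs hG hL P hP1]
    refine hG.rel _ _ fun t ht => ?_
    filter_upwards [ev_small ht] with n hn
    set τ := t n / s n with hτ
    have hτ1 : τ ^ 2 ≤ 1 := by rw [← sq_abs]; exact pow_le_one₀ (abs_nonneg _) hn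
    simp only [Pi.sub_apply]
    rw [← mul_sub, norm_mul, norm_mul]
    congr 1
    have h3 : ((t n : ℝ) : ℂ) / (s n : ℂ) = ((τ : ℝ) : ℂ) := by rw [hτ]; push_cast; rfl
    rw [h3]
    have h4 : ((W.eval (lam (l i) * τ) : ℝ) : ℂ) *
        (((l i * τ : ℝ) : ℂ) + (Real.sqrt (1 - τ ^ 2) : ℝ) * Complex.I)
        - ((W.eval (lam (l j) * τ) : ℝ) : ℂ) *
        (((l j * τ : ℝ) : ℂ) + (Real.sqrt (1 - τ ^ 2) : ℝ) * Complex.I)
        = ((τ * (l i * W.eval (lam (l i) * τ) - l j * W.eval (lam (l j) * τ)) : ℝ) : ℂ)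
          + ((Real.sqrt (1 - τ ^ 2) * (W.eval (lam (l i) * τ) - W.eval (lam (l j) * τ)) : ℝ) : ℂ)
            * Complex.I := by
      push_cast
      ring
    rw [h4, Complex.norm_add_mul_I]
    have h5 : (τ * (l i * W.eval (lam (l i) * τ) - l j * W.eval (lam (l j) * τ))) ^ 2
        + (Real.sqrt (1 - τ ^ 2) * (W.eval (lam (l i) * τ) - W.eval (lam (l j) * τ))) ^ 2
        = ‖P.eval (τ : ℂ)‖ ^ 2 := by
      rw [hP2, mul_pow, mul_pow, Real.sq_sqrt (by linarith)]
    rw [h5, Real.sqrt_sq (norm_nonneg _)]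

/-- the points on the circle of radius `s n` -/
noncomputable def pt (s : ℕ → ℝ) (j : ℕ) : Fam := fun n t =>
  (s n : ℂ) * ((-1) ^ j * Complex.exp (2 * ((j * Real.arccos (t / s n) : ℝ) * Complex.I)))

theorem norm_pt {s : ℕ → ℝ} (hs0 : ∀ n, 0 < s n) (j n : ℕ) (t : ℝ) : ‖pt s j n t‖ = s n := by
  unfold pt
  rw [norm_mul, norm_mul, norm_pow, norm_neg, norm_one, one_pow, one_mul,
    Complex.norm_real, Real.norm_of_nonneg (hs0 n).le]
  have : (2 : ℂ) * ((j * Real.arccos (t / s n) : ℝ) * Complex.I)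
      = ((2 * (j * Real.arccos (t / s n)) : ℝ) : ℂ) * Complex.I := by push_cast; ring
  rw [this, Complex.norm_exp_ofReal_mul_I, mul_one]

theorem norm_pt_sub {s : ℕ → ℝ} (hs0 : ∀ n, 0 < s n) (i d n : ℕ) (t : ℝ) :
    ‖pt s i n t - pt s (i + d) n t‖ =
      s n * ‖1 - (-1) ^ d * Complex.exp (2 * ((d * Real.arccos (t / s n) : ℝ) * Complex.I))‖ := by
  have h : pt s i n t - pt s (i + d) n t = pt s i n t *
      (1 - (-1) ^ d * Complex.exp (2 * ((d * Real.arccos (t / s n) : ℝ) * Complex.I))) := by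
    unfold pt
    have h1 : Complex.exp (2 * (((i + d : ℕ) * Real.arccos (t / s n) : ℝ) * Complex.I))
        = Complex.exp (2 * ((i * Real.arccos (t / s n) : ℝ) * Complex.I))
          * Complex.exp (2 * ((d * Real.arccos (t / s n) : ℝ) * Complex.I)) := by
      rw [← Complex.exp_add]; congr 1; push_cast; ring
    rw [h1, pow_add]
    ring
  rw [h, norm_mul, norm_pt hs0]

theorem pt_orth {s : ℕ → ℝ} (hs0 : ∀ n, 0 < s n) (hs : Tendsto s atTop atTop)
    {φ : ℂ → ℝ} {v : ℝ} {Ψ : Fam → ℝ} (hG : Good s φ v Ψ) (hL : LineZero φ) (i d : ℕ)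
    (hd : 1 ≤ d) : Ψ (pt s i - pt s (i + d)) = 0 := by
  rcases Nat.even_or_odd d with he | ho
  · obtain ⟨m, rfl⟩ : ∃ m, d = m + 1 := ⟨d - 1, by omega⟩
    have hW : (C 2 * Chebyshev.U ℝ (m : ℤ)).natDegree ≤ m := by
      refine (natDegree_C_mul_le _ _).trans ?_
      rw [Chebyshev.natDegree_U_natCast]
    rw [← evenNull hs0 hs hG hL (C 2 * Chebyshev.U ℝ (m : ℤ)) m hW (fun x hx => by
      have h1 := (U_lower x hx m).1
      rw [eval_mul, eval_C, abs_mul, abs_of_pos (by norm_num : (0 : ℝ) < 2)]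
      have h2 : 0 ≤ |(Chebyshev.U ℝ (m : ℤ)).eval x| := abs_nonneg _
      linarith)]
    refine hG.rel _ _ fun t ht => ?_
    filter_upwards [ev_small ht] with n hn
    simp only [Pi.sub_apply]
    rw [norm_pt_sub hs0, he.neg_one_pow, one_mul, norm_one_sub]
    set τ := t n / s n with hτ
    have h1 := abs_le.mp hn
    have h2 := Chebyshev.U_real_cos (Real.arccos τ) (m : ℤ)
    rw [Real.cos_arccos h1.1 h1.2, Real.sin_arccos] at h2
    have h3 : ((m + 1 : ℕ) : ℝ) * Real.arccos τ = (((m : ℤ) : ℝ) + 1) * Real.arccos τ := by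
      push_cast; ring
    rw [h3, ← h2, Complex.norm_real, Real.norm_eq_abs, eval_mul, eval_C, abs_mul, abs_mul, abs_mul,
      abs_mul, abs_of_pos (hs0 n), abs_of_pos (by norm_num : (0 : ℝ) < 2)]
    ring
  · have hT : 1 ≤ (C 2 * Chebyshev.T ℂ (d : ℤ)).natDegree := by
      rw [natDegree_C_mul (by norm_num), Chebyshev.natDegree_T]
      simpa using hd
    rw [← scaledNull hs0 hs hG hL (C 2 * Chebyshev.T ℂ (d : ℤ)) hT]
    refine hG.rel _ _ fun t ht => ?_
    filter_upwards [ev_small ht] with n hn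
    simp only [Pi.sub_apply]
    rw [norm_pt_sub hs0, ho.neg_one_pow]
    set τ := t n / s n with hτ
    have h1 := abs_le.mp hn
    have h2 := Chebyshev.T_real_cos (Real.arccos τ) (d : ℤ)
    rw [Real.cos_arccos h1.1 h1.2] at h2
    have h4 : ((t n : ℝ) : ℂ) / (s n : ℂ) = ((τ : ℝ) : ℂ) := by rw [hτ]; push_cast; rfl
    rw [h4, eval_mul, eval_C, ← Chebyshev.complex_ofReal_eval_T, h2, neg_one_mul, sub_neg_eq_add,
      norm_one_add, norm_mul, norm_mul, Complex.norm_real, Complex.norm_real,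
      Real.norm_of_nonneg (hs0 n).le, Real.norm_eq_abs, Complex.norm_ofNat]
    push_cast
    ring

/-- A sequence of radii tending to infinity cannot be avoided by sets of positive density. -/
theorem not_dense (s : ℕ → ℝ) (hs0 : ∀ n, 0 < s n) (hs : Tendsto s atTop atTop) (a : ℝ)
    (ha : 0 < a) : ¬ Dense (Set.range s) a := by
  intro H
  obtain ⟨φ, v, hv, hφ, hm, hr, hval⟩ := exists_phi (Set.range s) a ha H
  have hL := lineZero φ hφ hr hm
  obtain ⟨Ψ, hG⟩ := exists_good s φ v hφ hr (fun z ⟨n, hn⟩ => hval z ⟨n, hn.symm⟩)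
  have h0 : v = 0 := by
    refine zero_of_families hG.pd _ fun N _ => ⟨pt s, fun i _ => ?_, fun i _ j _ hij => ?_⟩
    · exact hG.circle _ fun n t => norm_pt hs0 i n t
    · rcases Nat.lt_or_gt_of_ne hij with h | h
      · obtain ⟨d, rfl⟩ := Nat.exists_eq_add_of_lt h
        rw [add_assoc]
        exact pt_orth hs0 hs hG hL i (d + 1) (by omega)
      · obtain ⟨d, rfl⟩ := Nat.exists_eq_add_of_lt h
        rw [← hG.pd.symm, neg_sub, add_assoc]
        exact pt_orth hs0 hs hG hL j (d + 1) (by omega)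
  linarith

/-- Sets without two points at a distance in an unbounded set `D` have density zero, uniformly: for
all `a > 0` there is a finite set of points at most the proportion `a` of which lies in such a
set. -/
theorem exists_config (D : Set ℝ) (hD : ¬ BddAbove D) (a : ℝ) (ha : 0 < a) :
    ∃ V : Finset ℂ, V.Nonempty ∧ ∀ B : Set ℂ, (∀ x ∈ B, ∀ y ∈ B, ‖x - y‖ ∉ D) →
      (({v | v ∈ V ∧ v ∈ B} : Set ℂ).ncard : ℝ) < a * V.card := by
  have h1 : ∀ n : ℕ, ∃ d ∈ D, (n : ℝ) + 1 ≤ d := by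
    intro n
    by_contra hcon
    push Not at hcon
    exact hD ⟨n + 1, fun d hd => (hcon d hd).le⟩
  choose s hsD hsn using h1
  have hs0 : ∀ n, 0 < s n := fun n => by
    have := hsn n
    have h2 : (0 : ℝ) ≤ n := n.cast_nonneg
    linarith
  have hs : Tendsto s atTop atTop := by
    refine tendsto_atTop_mono (fun n => ?_) tendsto_natCast_atTop_atTop
    have := hsn n
    linarith
  by_contra hcon
  push Not at hcon
  apply not_dense s hs0 hs a ha
  intro V hV
  obtain ⟨B, hB, hBV⟩ := hcon V hV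
  refine ⟨B, fun x hx y hy ⟨n, hn⟩ => hB x hx y hy (hn ▸ hsD n), hBV⟩

end Pool.Agent.KS6_20.GP
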