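import Pool.Agent.KS6_20.GP.Circle

/-!
# Finite colourings and sets of positive density
-/

set_option autoImplicit false

namespace Pool.Agent.KS6_20.GP

open Finset Filter Topology

/-- the Euclidean space of dimension `d` -/
abbrev E (d : ℕ) := EuclideanSpace ℝ (Fin d)

/-- uniform density theorem -/
theorem density (D : Set ℝ) (hD : ¬ BddAbove D) (ε : ℝ) (hε : 0 < ε) :
    ∃ F : Finset ℝ, ↑F ⊆ D ∧ ∃ V : Finset (E 2), V.Nonempty ∧
      ∀ (X : Type) [MetricSpace X] (g : E 2 → X), Isometry g →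
        ∀ A : Set X, (∀ x ∈ A, ∀ y ∈ A, dist x y ∉ F) →
          (({v | v ∈ V ∧ g v ∈ A} : Set (E 2)).ncard : ℝ) ≤ ε * V.card := by
  classical
  obtain ⟨V0, hV0, hmain⟩ := exists_config D hD ε hε
  let e : ℂ ≃ₗᵢ[ℝ] E 2 := Complex.orthonormalBasisOneI.repr
  let F : Finset ℝ := ((V0 ×ˢ V0).image (fun p => ‖p.1 - p.2‖)).filter (· ∈ D)
  refine ⟨F, ?_, V0.image e, hV0.image _, ?_⟩
  · intro d hd
    exact (Finset.mem_filter.1 (Finset.mem_coe.1 hd)).2
  · intro X _ g hg A hA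
    have h1 := hmain {z | z ∈ V0 ∧ g (e z) ∈ A} (by
      intro x hx y hy hxy
      have h2 : dist (g (e x)) (g (e y)) = ‖x - y‖ := by
        rw [hg.dist_eq, e.dist_map, dist_eq_norm]
      refine hA _ hx.2 _ hy.2 ?_
      rw [h2]
      refine Finset.mem_filter.2 ⟨Finset.mem_image.2 ⟨(x, y), ?_, rfl⟩, hxy⟩
      exact Finset.mk_mem_product hx.1 hy.1)
    have h3 : ({v | v ∈ V0.image e ∧ g v ∈ A} : Set (E 2))
        = e '' {v | v ∈ V0 ∧ v ∈ {z | z ∈ V0 ∧ g (e z) ∈ A}} := by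
      ext v
      constructor
      · rintro ⟨hv, hvA⟩
        obtain ⟨z, hz, rfl⟩ := Finset.mem_image.1 hv
        exact ⟨z, ⟨hz, hz, hvA⟩, rfl⟩
      · rintro ⟨z, ⟨hz, _, hvA⟩, rfl⟩
        exact ⟨Finset.mem_image_of_mem _ hz, hvA⟩
    rw [h3, Set.ncard_image_of_injective _ e.injective, Finset.card_image_of_injective _ e.injective]
    exact h1.le

/-- isometric copies of the plane -/
theorem exists_embedding (d : ℕ) (hd : 2 ≤ d) : ∃ j : E 2 → E d, Isometry j := by
  obtain ⟨m, rfl⟩ : ∃ m, d = m + 2 := ⟨d - 2, by omega⟩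
  refine ⟨fun x => WithLp.toLp 2 (Fin.append (fun _ : Fin m => (0 : ℝ)) (fun i : Fin 2 => x i)), ?_⟩
  refine Isometry.of_dist_eq fun x y => ?_
  rw [EuclideanSpace.dist_eq, EuclideanSpace.dist_eq, Fin.sum_univ_add]
  congr 1
  simp

/-- sets of positive upper density realise all large distances -/
theorem allLarge_of_density (d : ℕ) (hd : 2 ≤ d) (A : Set (E d)) (δ : ℝ) (hδ : 0 < δ)
    (hA : ∀ V : Finset (E d), V.Nonempty → ∃ x, δ * V.card ≤ ({v | v ∈ V ∧ x + v ∈ A} : Set (E d)).ncard) :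
    ∃ R : ℝ, ∀ s ≥ R, ∃ x ∈ A, ∃ y ∈ A, dist x y = s := by
  classical
  by_contra hcon
  push Not at hcon
  have hD : ¬ BddAbove {s : ℝ | ∀ x ∈ A, ∀ y ∈ A, dist x y ≠ s} := by
    rintro ⟨R, hR⟩
    obtain ⟨s, hs, hs'⟩ := hcon (R + 1)
    have := hR (a := s) hs'
    linarith
  obtain ⟨F, hFD, V, hV, hmain⟩ := density _ hD (δ / 2) (by positivity)
  obtain ⟨j, hj⟩ := exists_embedding d hd
  obtain ⟨x, hx⟩ := hA (V.image j) (hV.image _)
  have h1 := hmain (E d) (fun v => x + j v) ((IsometryEquiv.addLeft x).isometry.comp hj) A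
    (fun y hy z hz h => hFD h y hy z hz rfl)
  have h2 : ({v | v ∈ V.image j ∧ x + v ∈ A} : Set (E d)) = j '' {v | v ∈ V ∧ x + j v ∈ A} := by
    ext v
    constructor
    · rintro ⟨hv, hvA⟩
      obtain ⟨z, hz, rfl⟩ := Finset.mem_image.1 hv
      exact ⟨z, ⟨hz, hvA⟩, rfl⟩
    · rintro ⟨z, ⟨hz, hvA⟩, rfl⟩
      exact ⟨Finset.mem_image_of_mem _ hz, hvA⟩
  rw [h2, Set.ncard_image_of_injective _ hj.injective,
    Finset.card_image_of_injective _ hj.injective] at hx
  have h3 : (0 : ℝ) < V.card := by exact_mod_cast Finset.card_pos.2 hV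
  nlinarith

/-- one finite family of points for several colours -/
theorem union_family {k : ℕ} (ε : ℝ) (F : Fin k → Set ℝ) (V : Fin k → Finset (E 2))
    (hV : ∀ j, (V j).Nonempty)
    (hmain : ∀ j, ∀ (g : E 2 → E 2), Isometry g → ∀ A : Set (E 2),
      (∀ x ∈ A, ∀ y ∈ A, dist x y ∉ F j) →
      (({v | v ∈ V j ∧ g v ∈ A} : Set (E 2)).ncard : ℝ) ≤ ε * (V j).card) (J : Finset (Fin k)) :
    ∃ (ι : Type) (_ : Fintype ι) (_ : Nonempty ι) (w : ι → E 2), ∀ A : Fin k → Set (E 2),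
      (∀ j ∈ J, ∀ x ∈ A j, ∀ y ∈ A j, dist x y ∉ F j) → ∀ x : E 2,
        (({i | ∃ j ∈ J, x + w i ∈ A j} : Set ι).ncard : ℝ) ≤ ε * J.card * Fintype.card ι := by
  classical
  induction J using Finset.induction_on with
  | empty =>
    refine ⟨Unit, inferInstance, inferInstance, fun _ => 0, fun A _ x => ?_⟩
    simp
  | insert j J hj ih =>
    obtain ⟨ι, hι, hne, w, hw⟩ := ih
    have : Nonempty (V j) := (hV j).to_subtype
    refine ⟨V j × ι, inferInstance, inferInstance, fun p => (p.1 : E 2) + w p.2,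
      fun A hA x => ?_⟩
    have hAJ : ∀ j' ∈ J, ∀ x ∈ A j', ∀ y ∈ A j', dist x y ∉ F j' :=
      fun j' hj' => hA j' (Finset.mem_insert_of_mem hj')
    have hAj := hA j (Finset.mem_insert_self _ _)
    -- translate the two kinds of counts into sums of indicators
    have e1 : ∀ y : E 2, (({i | ∃ j' ∈ J, y + w i ∈ A j'} : Set ι).ncard : ℝ)
        = ∑ i : ι, if ∃ j' ∈ J, y + w i ∈ A j' then (1 : ℝ) else 0 := by
      intro y
      rw [Set.ncard_eq_toFinset_card', Finset.sum_boole]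
      congr 2
      ext i
      simp
    have e2 : ∀ y : E 2, (({v | v ∈ V j ∧ y + v ∈ A j} : Set (E 2)).ncard : ℝ)
        = ∑ v : V j, if y + (v : E 2) ∈ A j then (1 : ℝ) else 0 := by
      intro y
      have h1 : ({v | v ∈ V j ∧ y + v ∈ A j} : Set (E 2))
          = ((V j).filter (fun v => y + v ∈ A j) : Finset (E 2)) := by
        ext v; simp
      rw [h1, Set.ncard_coe_finset, ← Finset.sum_boole]
      exact (Finset.sum_coe_sort (V j) (fun v => if y + v ∈ A j then (1 : ℝ) else 0)).symm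
    have e3 : (({p | ∃ j' ∈ insert j J, x + ((p.1 : E 2) + w p.2) ∈ A j'} :
        Set (V j × ι)).ncard : ℝ)
        = ∑ p : V j × ι, if ∃ j' ∈ insert j J, x + ((p.1 : E 2) + w p.2) ∈ A j'
          then (1 : ℝ) else 0 := by
      rw [Set.ncard_eq_toFinset_card', Finset.sum_boole]
      congr 2
      ext i
      simp
    rw [e3]
    have h1 : ∀ p : V j × ι, (if ∃ j' ∈ insert j J, x + ((p.1 : E 2) + w p.2) ∈ A j'
          then (1 : ℝ) else 0)
        ≤ (if ∃ j' ∈ J, (x + p.1) + w p.2 ∈ A j' then (1 : ℝ) else 0)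
          + (if (x + w p.2) + p.1 ∈ A j then (1 : ℝ) else 0) := by
      intro p
      split_ifs with h2 h3 h4 h5 h6 h7
      · norm_num
      · norm_num
      · norm_num
      · exfalso
        obtain ⟨j', hj', hx⟩ := h2
        rcases Finset.mem_insert.1 hj' with rfl | hj'
        · apply h5
          have : x + w p.2 + (p.1 : E 2) = x + ((p.1 : E 2) + w p.2) := by abel
          rw [this]; exact hx
        · apply h3
          refine ⟨j', hj', ?_⟩
          rw [add_assoc]; exact hx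
      all_goals norm_num
    refine (Finset.sum_le_sum fun p _ => h1 p).trans ?_
    rw [Finset.sum_add_distrib, Fintype.sum_prod_type, Fintype.sum_prod_type_right]
    have h2 : ∑ v : V j, ∑ i : ι, (if ∃ j' ∈ J, (x + (v : E 2)) + w i ∈ A j' then (1 : ℝ) else 0)
        ≤ ∑ v : V j, ε * J.card * Fintype.card ι := by
      refine Finset.sum_le_sum fun v _ => ?_
      rw [← e1]
      exact hw A hAJ _
    have h3 : ∑ i : ι, ∑ v : V j, (if (x + w i) + (v : E 2) ∈ A j then (1 : ℝ) else 0)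
        ≤ ∑ i : ι, ε * (V j).card := by
      refine Finset.sum_le_sum fun i _ => ?_
      rw [← e2]
      exact hmain j (fun v => x + w i + v) (IsometryEquiv.addLeft (x + w i)).isometry _ hAj
    refine (add_le_add h2 h3).trans ?_
    rw [Finset.sum_const, Finset.sum_const, Finset.card_insert_of_notMem hj, nsmul_eq_mul,
      nsmul_eq_mul, Fintype.card_prod, Finset.card_univ, Finset.card_univ, Fintype.card_coe]
    push_cast
    apply le_of_eq
    ring

/-- finite version, with a set of distances for every colour -/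
theorem finite_version (k : ℕ) (D : Fin k → Set ℝ) (hD : ∀ j, ¬ BddAbove (D j)) :
    ∃ V : Finset (E 2), ∀ c : E 2 → Fin k, ∃ x ∈ V, ∃ y ∈ V, c x = c y ∧ dist x y ∈ D (c x) := by
  classical
  have h1 : ∀ j, ∃ V : Finset (E 2), V.Nonempty ∧ ∀ (g : E 2 → E 2), Isometry g →
      ∀ A : Set (E 2), (∀ x ∈ A, ∀ y ∈ A, dist x y ∉ D j) →
      (({v | v ∈ V ∧ g v ∈ A} : Set (E 2)).ncard : ℝ) ≤ (1 / ((k : ℝ) + 1)) * V.card := by
    intro j
    obtain ⟨F, hF, V, hV, h⟩ := density (D j) (hD j) (1 / ((k : ℝ) + 1)) (by positivity)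
    exact ⟨V, hV, fun g hg A hA => h (E 2) g hg A fun x hx y hy hxy => hA x hx y hy (hF hxy)⟩
  choose V hV hmain using h1
  obtain ⟨ι, hι, hne, w, hw⟩ := union_family (1 / ((k : ℝ) + 1)) D V hV hmain Finset.univ
  refine ⟨Finset.univ.image w, fun c => ?_⟩
  by_contra hcon
  push Not at hcon
  have h2 := hw (fun j => {x | x ∈ Finset.univ.image w ∧ c x = j}) (by
    rintro j _ x ⟨hx, hxj⟩ y ⟨hy, hyj⟩ hxy
    exact hcon x hx y hy (by rw [hxj, hyj]) (by rw [hxj]; exact hxy)) 0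
  have h3 : ({i | ∃ j ∈ (Finset.univ : Finset (Fin k)), (0 : E 2) + w i ∈
      ({x | x ∈ Finset.univ.image w ∧ c x = j} : Set (E 2))} : Set ι) = Set.univ := by
    ext i
    simp
  rw [h3, Set.ncard_univ, Nat.card_eq_fintype_card, Finset.card_univ, Fintype.card_fin] at h2
  have h4 : (0 : ℝ) < Fintype.card ι := by exact_mod_cast Fintype.card_pos
  have h5 : (1 / ((k : ℝ) + 1)) * k < 1 := by
    rw [one_div, inv_mul_lt_iff₀ (by positivity)]
    linarith
  nlinarith

/-- in a finite colouring some colour realises all large distances -/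
theorem colour_allLarge (d : ℕ) (hd : 2 ≤ d) (k : ℕ) (c : E d → Fin k) :
    ∃ j, ∃ R : ℝ, ∀ s ≥ R, ∃ x, c x = j ∧ ∃ y, c y = j ∧ dist x y = s := by
  by_contra hcon
  push Not at hcon
  obtain ⟨g, hg⟩ := exists_embedding d hd
  obtain ⟨V, hV⟩ := finite_version k (fun j => {s | ∀ x, c x = j → ∀ y, c y = j → dist x y ≠ s})
    (by
      rintro j ⟨R, hR⟩
      obtain ⟨s, hs, hs'⟩ := hcon j (R + 1)
      have := hR (a := s) hs'
      linarith)
  obtain ⟨x, -, y, -, hxy, hd'⟩ := hV (fun v => c (g v))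
  exact hd' (g x) rfl (g y) hxy.symm (hg.dist_eq x y)

/-- bounded sets of distances which are bounded away from zero can be avoided -/
theorem exists_colouring (d : ℕ) (hd : 1 ≤ d) (r R : ℝ) (hr : 0 < r) :
    ∃ (k : ℕ) (c : E d → Fin k), ∀ x y, r ≤ dist x y → dist x y ≤ R → c x ≠ c y := by
  classical
  have hd0 : (0 : ℝ) < d := by exact_mod_cast hd
  have hd1 : (1 : ℝ) ≤ d := by exact_mod_cast hd
  set h : ℝ := r / d with hh
  have hh0 : 0 < h := by positivity
  obtain ⟨M, hM⟩ := exists_nat_gt (R / h + 1)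
  have : NeZero (M + 1) := ⟨by omega⟩
  let c0 : E d → (Fin d → ZMod (M + 1)) := fun x i => ((⌊x i / h⌋ : ℤ) : ZMod (M + 1))
  let e := Fintype.equivFin (Fin d → ZMod (M + 1))
  refine ⟨_, fun x => e (c0 x), fun x y h1 h2 h3 => ?_⟩
  have h4 : c0 x = c0 y := e.injective h3
  by_cases hfl : ∀ i, ⌊x i / h⌋ = ⌊y i / h⌋
  · have h5 : ∀ i, (x i - y i) ^ 2 < h ^ 2 := by
      intro i
      have h6 := Int.abs_sub_lt_one_of_floor_eq_floor (hfl i)
      rw [← sub_div, abs_div, abs_of_pos hh0, div_lt_one hh0] at h6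
      rw [← sq_abs]
      exact pow_lt_pow_left₀ h6 (abs_nonneg _) (by norm_num)
    have h6 : dist x y ^ 2 < d * h ^ 2 := by
      rw [EuclideanSpace.dist_sq_eq]
      have h7 : ∑ i, dist (x i) (y i) ^ 2 < ∑ i : Fin d, h ^ 2 := by
        have : Nonempty (Fin d) := ⟨⟨0, hd⟩⟩
        refine Finset.sum_lt_sum_of_nonempty Finset.univ_nonempty fun i _ => ?_
        rw [Real.dist_eq, sq_abs]
        exact h5 i
      simpa using h7
    have h7 : (d : ℝ) * h ^ 2 ≤ r ^ 2 := by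
      rw [hh]
      have : (d : ℝ) * (r / d) ^ 2 = r ^ 2 / d := by field_simp
      rw [this, div_le_iff₀ hd0]
      nlinarith [sq_nonneg r]
    have h8 : r ^ 2 ≤ dist x y ^ 2 := pow_le_pow_left₀ hr.le h1 2
    linarith
  · push Not at hfl
    obtain ⟨i, hi⟩ := hfl
    have h5 : ((⌊x i / h⌋ : ℤ) : ZMod (M + 1)) = ((⌊y i / h⌋ : ℤ) : ZMod (M + 1)) := congrFun h4 i
    rw [ZMod.intCast_eq_intCast_iff] at h5
    have h6 : ((M + 1 : ℕ) : ℤ) ∣ ⌊y i / h⌋ - ⌊x i / h⌋ := h5.dvd
    have h7 : ((M + 1 : ℕ) : ℤ) ≤ |⌊y i / h⌋ - ⌊x i / h⌋| :=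
      Int.le_of_dvd (abs_pos.2 (sub_ne_zero.2 (Ne.symm hi))) ((dvd_abs _ _).2 h6)
    have h8 : ((M : ℝ) + 1) ≤ |((⌊y i / h⌋ : ℤ) : ℝ) - ((⌊x i / h⌋ : ℤ) : ℝ)| := by
      have : (((M + 1 : ℕ) : ℤ) : ℝ) ≤ ((|⌊y i / h⌋ - ⌊x i / h⌋| : ℤ) : ℝ) := by
        exact_mod_cast h7
      push_cast at this
      exact this
    have h9 : |y i / h - x i / h| ≥ M := by
      have a1 := Int.floor_le (x i / h)
      have a2 := Int.lt_floor_add_one (x i / h)
      have a3 := Int.floor_le (y i / h)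
      have a4 := Int.lt_floor_add_one (y i / h)
      rcases le_abs.1 h8 with h | h
      · rw [ge_iff_le, le_abs]; left; linarith
      · rw [ge_iff_le, le_abs]; right; linarith
    rw [← sub_div, abs_div, abs_of_pos hh0, ge_iff_le, le_div_iff₀ hh0] at h9
    have h10 : |y i - x i| ≤ dist x y := by
      have h11 : dist (x i) (y i) ^ 2 ≤ dist x y ^ 2 := by
        rw [EuclideanSpace.dist_sq_eq]
        exact Finset.single_le_sum (f := fun i => dist (x i) (y i) ^ 2)
          (fun _ _ => by positivity) (Finset.mem_univ i)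
      rw [abs_sub_comm, ← Real.dist_eq]
      exact le_of_sq_le_sq h11 dist_nonneg
    have h12 : R < M * h := by
      have := hM
      rw [← sub_pos] at this
      have h13 : R / h < M := by linarith
      rwa [div_lt_iff₀ hh0] at h13
    linarith

end Pool.Agent.KS6_20.GP
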