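import Mathlib

/-!
# Finite almost invariant sets in abelian groups
-/

set_option autoImplicit false

namespace Pool.Agent.KS6_20.GP

open Finset Filter Topology

/-- For a finite set `S` in an abelian group there are finite sets `V` almost all of whose elements
stay in `V` when an element of `S` is subtracted. -/
theorem folner {G : Type*} [AddCommGroup G] [DecidableEq G] (S : Finset G) (η : ℝ) (hη : 0 < η) :
    ∃ V : Finset G, V.Nonempty ∧
      ∀ x ∈ S, ((V.filter (fun v => v - x ∉ V)).card : ℝ) ≤ η * V.card := by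
  let f : (S → ℕ) → G := fun k => ∑ x : S, k x • (x : G)
  let W : ℕ → Finset G := fun n => (Fintype.piFinset (fun _ : S => range (n + 1))).image f
  have h0 : ∀ n, (0 : G) ∈ W n := by
    intro n
    refine Finset.mem_image.2 ⟨fun _ => 0, ?_, by simp [f]⟩
    rw [Fintype.mem_piFinset]
    intro a
    simp
  have hcard : ∀ n, (W n).card ≤ (n + 1) ^ S.card := by
    intro n
    refine Finset.card_image_le.trans ?_
    rw [Fintype.card_piFinset]
    simp
  have hstep : ∀ n, ∀ x ∈ S, ∀ v ∈ W n, v + x ∈ W (n + 1) := by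
    intro n x hx v hv
    obtain ⟨k, hk, rfl⟩ := Finset.mem_image.1 hv
    rw [Fintype.mem_piFinset] at hk
    refine Finset.mem_image.2 ⟨k + Pi.single ⟨x, hx⟩ 1, ?_, ?_⟩
    · rw [Fintype.mem_piFinset]
      intro a
      have h1 := Finset.mem_range.1 (hk a)
      have h2 : (Pi.single (⟨x, hx⟩ : S) (1 : ℕ) : S → ℕ) a ≤ 1 := by
        rw [Pi.single_apply]; split_ifs <;> omega
      rw [Finset.mem_range, Pi.add_apply]
      omega
    · simp only [f, Pi.add_apply, add_smul, Finset.sum_add_distrib]
      congr 1
      rw [Finset.sum_eq_single (⟨x, hx⟩ : S)]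
      · simp
      · intro b _ hb
        rw [Pi.single_apply, if_neg hb, zero_smul]
      · intro h; exact absurd (Finset.mem_univ _) h
  have hmono : ∀ n, W n ⊆ W (n + 1) := by
    intro n v hv
    obtain ⟨k, hk, rfl⟩ := Finset.mem_image.1 hv
    refine Finset.mem_image.2 ⟨k, ?_, rfl⟩
    rw [Fintype.mem_piFinset] at hk ⊢
    intro a
    have := Finset.mem_range.1 (hk a)
    rw [Finset.mem_range]
    omega
  have hex : ∃ n, ((W (n + 1)).card : ℝ) ≤ (1 + η) * (W n).card := by
    by_contra hcon
    push Not at hcon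
    have hlow : ∀ n, (1 + η) ^ n ≤ ((W n).card : ℝ) := by
      intro n
      induction n with
      | zero =>
        have : 0 < (W 0).card := Finset.card_pos.2 ⟨0, h0 0⟩
        simp only [pow_zero]
        exact_mod_cast this
      | succ n ih =>
        rw [pow_succ']
        calc (1 + η) * (1 + η) ^ n ≤ (1 + η) * (W n).card := by gcongr
          _ ≤ _ := (hcon n).le
    have ht := tendsto_pow_const_div_const_pow_of_one_lt S.card (show (1 : ℝ) < 1 + η by linarith)
    have hev := (ht.eventually (gt_mem_nhds (show (0 : ℝ) < 1 / (1 + η) by positivity))).and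
      (eventually_ge_atTop 1)
    obtain ⟨n, hn, hn1⟩ := hev.exists
    obtain ⟨m, rfl⟩ : ∃ m, n = m + 1 := ⟨n - 1, by omega⟩
    have h1 := hlow m
    have h2 : ((W m).card : ℝ) ≤ ((m + 1 : ℕ) : ℝ) ^ S.card := by exact_mod_cast hcard m
    rw [div_lt_div_iff₀ (by positivity) (by positivity), pow_succ] at hn
    have h3 : (0 : ℝ) < 1 + η := by positivity
    nlinarith
  obtain ⟨n, hn⟩ := hex
  refine ⟨W (n + 1), ⟨0, h0 _⟩, fun x hx => ?_⟩
  have hsub : (W (n + 1)).filter (fun v => v - x ∉ W (n + 1))
      ⊆ W (n + 1) \ (W n).image (fun v => v + x) := by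
    intro v hv
    rw [Finset.mem_filter] at hv
    rw [Finset.mem_sdiff]
    refine ⟨hv.1, fun h => ?_⟩
    obtain ⟨w, hw, rfl⟩ := Finset.mem_image.1 h
    exact hv.2 (by simpa using hmono n hw)
  have himg : (W n).image (fun v => v + x) ⊆ W (n + 1) := by
    intro v hv
    obtain ⟨w, hw, rfl⟩ := Finset.mem_image.1 hv
    exact hstep n x hx w hw
  have hc : ((W (n + 1) \ (W n).image (fun v => v + x)).card : ℝ)
      = (W (n + 1)).card - (W n).card := by
    have h1 := Finset.card_sdiff_add_card_eq_card himg
    rw [Finset.card_image_of_injective _ (add_left_injective x)] at h1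
    have h2 : ((W (n + 1) \ (W n).image (fun v => v + x)).card : ℝ) + (W n).card
        = (W (n + 1)).card := by exact_mod_cast h1
    linarith
  have h1 : (((W (n + 1)).filter (fun v => v - x ∉ W (n + 1))).card : ℝ)
      ≤ ((W (n + 1) \ (W n).image (fun v => v + x)).card : ℝ) := by
    exact_mod_cast Finset.card_le_card hsub
  have h2 : ((W n).card : ℝ) ≤ (W (n + 1)).card := by
    exact_mod_cast Finset.card_le_card (hmono n)
  have h3 : η * ((W n).card : ℝ) ≤ η * (W (n + 1)).card := by gcongr
  linarith

end Pool.Agent.KS6_20.GP
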