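import Pool.Graph.R_seed8.H235R3.PT.Main
import Pool.Agent.KS6_20.GP.Folner

/-!
# From sets of positive density to invariant positive definite functions
-/

set_option autoImplicit false

namespace Pool.Agent.KS6_20.GP

open Finset Filter Topology
open Pool.Agent.H235R3.PT (exists_invariant PD MeanZero exists_meanZero continuous_ev)

/-- the inequality satisfied by the kernel of a set -/
def Quad (K : ℂ × ℂ → ℝ) : Prop :=
  ∀ (s : Finset ℂ) (u : ℂ → ℝ),
    (∑ x ∈ s, u x * K (x, x)) ^ 2 ≤ ∑ x ∈ s, ∑ y ∈ s, u x * u y * K (x, y)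

/-- the kernels considered: they vanish at the distances in `D` and their diagonal is at
least `a` -/
def KSet (D : Set ℝ) (a : ℝ) : Set (ℂ × ℂ → ℝ) :=
  {K | (∀ p, |K p| ≤ 1) ∧ (∀ x y, K (x, y) = K (y, x)) ∧ Quad K ∧
    (∀ x y, ‖x - y‖ ∈ D → K (x, y) = 0) ∧ ∀ x, a ≤ K (x, x)}

theorem kSet_closed (D : Set ℝ) (a : ℝ) : IsClosed (KSet D a) := by
  have e1 : IsClosed {K : ℂ × ℂ → ℝ | ∀ p, |K p| ≤ 1} := by
    simp only [Set.ofPred_forall]
    exact isClosed_iInter fun p => isClosed_le (continuous_ev p).abs continuous_const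
  have e2 : IsClosed {K : ℂ × ℂ → ℝ | ∀ x y, K (x, y) = K (y, x)} := by
    simp only [Set.ofPred_forall]
    exact isClosed_iInter fun x => isClosed_iInter fun y =>
      isClosed_eq (continuous_ev _) (continuous_ev _)
  have e3 : IsClosed {K : ℂ × ℂ → ℝ | Quad K} := by
    unfold Quad
    simp only [Set.ofPred_forall]
    refine isClosed_iInter fun s => isClosed_iInter fun u => isClosed_le ?_ ?_
    · exact (continuous_finsetSum _ fun x _ => continuous_const.mul (continuous_ev _)).pow 2
    · exact continuous_finsetSum _ fun x _ => continuous_finsetSum _ fun y _ =>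
        continuous_const.mul (continuous_ev _)
  have e4 : IsClosed {K : ℂ × ℂ → ℝ | ∀ x y, ‖x - y‖ ∈ D → K (x, y) = 0} := by
    simp only [Set.ofPred_forall]
    exact isClosed_iInter fun x => isClosed_iInter fun y =>
      isClosed_iInter fun _ => isClosed_eq (continuous_ev _) continuous_const
  have e5 : IsClosed {K : ℂ × ℂ → ℝ | ∀ x, a ≤ K (x, x)} := by
    simp only [Set.ofPred_forall]
    exact isClosed_iInter fun x => isClosed_le continuous_const (continuous_ev _)
  exact e1.inter (e2.inter (e3.inter (e4.inter e5)))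

theorem kSet_convex (D : Set ℝ) (a : ℝ) : Convex ℝ (KSet D a) := by
  intro K hK L hL α β hα hβ hαβ
  refine ⟨fun p => ?_, fun x y => ?_, fun s u => ?_, fun x y h => ?_, fun x => ?_⟩
  · simp only [Pi.add_apply, Pi.smul_apply, smul_eq_mul]
    calc |α * K p + β * L p| ≤ |α * K p| + |β * L p| := abs_add_le _ _
      _ = α * |K p| + β * |L p| := by rw [abs_mul, abs_mul, abs_of_nonneg hα, abs_of_nonneg hβ]
      _ ≤ α * 1 + β * 1 := by gcongr; exact hK.1 p; exact hL.1 p
      _ = 1 := by linarith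
  · simp only [Pi.add_apply, Pi.smul_apply, smul_eq_mul]
    rw [hK.2.1 x y, hL.2.1 x y]
  · have h1 := hK.2.2.1 s u
    have h2 := hL.2.2.1 s u
    have h3 : ∑ x ∈ s, ∑ y ∈ s, u x * u y * (α • K + β • L) (x, y)
        = α * (∑ x ∈ s, ∑ y ∈ s, u x * u y * K (x, y))
          + β * (∑ x ∈ s, ∑ y ∈ s, u x * u y * L (x, y)) := by
      simp only [Pi.add_apply, Pi.smul_apply, smul_eq_mul, Finset.mul_sum,
        ← Finset.sum_add_distrib]
      refine Finset.sum_congr rfl fun x _ => Finset.sum_congr rfl fun y _ => ?_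
      ring
    have h4 : ∑ x ∈ s, u x * (α • K + β • L) (x, x)
        = α * (∑ x ∈ s, u x * K (x, x)) + β * (∑ x ∈ s, u x * L (x, x)) := by
      simp only [Pi.add_apply, Pi.smul_apply, smul_eq_mul, Finset.mul_sum,
        ← Finset.sum_add_distrib]
      refine Finset.sum_congr rfl fun x _ => ?_
      ring
    rw [h3, h4]
    set p := ∑ x ∈ s, u x * K (x, x)
    set q := ∑ x ∈ s, u x * L (x, x)
    have h5 := mul_le_mul_of_nonneg_left h1 hα
    have h6 := mul_le_mul_of_nonneg_left h2 hβ
    have h7 : (α * p + β * q) ^ 2 ≤ α * p ^ 2 + β * q ^ 2 := by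
      have h8 : β = 1 - α := by linarith
      have h9 : α * p ^ 2 + β * q ^ 2 - (α * p + β * q) ^ 2 = α * β * (p - q) ^ 2 := by
        rw [h8]; ring
      have h10 : 0 ≤ α * β * (p - q) ^ 2 := by positivity
      linarith
    linarith
  · simp only [Pi.add_apply, Pi.smul_apply, smul_eq_mul]
    rw [hK.2.2.2.1 x y h, hL.2.2.2.1 x y h]
    ring
  · simp only [Pi.add_apply, Pi.smul_apply, smul_eq_mul]
    have h1 := mul_le_mul_of_nonneg_left (hK.2.2.2.2 x) hα
    have h2 := mul_le_mul_of_nonneg_left (hL.2.2.2.2 x) hβ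
    have h3 : a = α * a + β * a := by rw [← add_mul, hαβ, one_mul]
    linarith

theorem kSet_comp (D : Set ℝ) (a : ℝ) (g : ℂ → ℂ) (hinj : Function.Injective g)
    (hg : ∀ x y, ‖g x - g y‖ = ‖x - y‖)
    (K : ℂ × ℂ → ℝ) (hK : K ∈ KSet D a) : (fun p : ℂ × ℂ => K (g p.1, g p.2)) ∈ KSet D a := by
  classical
  refine ⟨fun p => hK.1 _, fun x y => hK.2.1 _ _, fun s u => ?_, fun x y h => ?_,
    fun x => hK.2.2.2.2 _⟩
  · have h1 := hK.2.2.1 (s.image g) (fun z => u (Function.invFun g z))
    have hinv : ∀ x, Function.invFun g (g x) = x := Function.leftInverse_invFun hinj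
    rw [Finset.sum_image (fun x _ y _ h => hinj h), Finset.sum_image (fun x _ y _ h => hinj h)]
      at h1
    simp only [Finset.sum_image (fun x _ y _ h => hinj h), hinv] at h1
    exact h1
  · exact hK.2.2.2.1 _ _ (by rw [hg]; exact h)

theorem kSet_compact (D : Set ℝ) (a : ℝ) : IsCompact (KSet D a) := by
  have h1 : IsCompact (Set.pi Set.univ (fun _ : ℂ × ℂ => Set.Icc (-(1 : ℝ)) 1)) :=
    isCompact_univ_pi (fun _ => isCompact_Icc)
  refine h1.of_isClosed_subset (kSet_closed D a) ?_
  intro f hf x _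
  exact abs_le.mp (hf.1 x)

open Classical in
/-- the kernel of a set -/
noncomputable def ker (B : Set ℂ) : ℂ × ℂ → ℝ :=
  fun p => (if p.1 ∈ B then 1 else 0) * (if p.2 ∈ B then 1 else 0)

theorem ker_mem (D : Set ℝ) (B : Set ℂ) (hB : ∀ x ∈ B, ∀ y ∈ B, ‖x - y‖ ∉ D) :
    ker B ∈ KSet D 0 := by
  classical
  refine ⟨fun p => ?_, fun x y => ?_, fun s u => ?_, fun x y h => ?_, fun x => ?_⟩
  · unfold ker; split_ifs <;> norm_num
  · unfold ker; exact mul_comm _ _
  · have h1 : ∀ x, ker B (x, x) = if x ∈ B then 1 else 0 := by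
      intro x; unfold ker; split_ifs <;> norm_num
    have h2 : ∑ x ∈ s, ∑ y ∈ s, u x * u y * ker B (x, y)
        = (∑ x ∈ s, u x * ker B (x, x)) ^ 2 := by
      rw [sq, Finset.sum_mul_sum]
      refine Finset.sum_congr rfl fun x _ => Finset.sum_congr rfl fun y _ => ?_
      rw [h1, h1]
      unfold ker
      dsimp only
      ring
    rw [h2]
  · unfold ker
    dsimp only
    by_cases hx : x ∈ B
    · by_cases hy : y ∈ B
      · exact absurd h (hB x hx y hy)
      · simp [hy]
    · simp [hx]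
  · unfold ker; split_ifs <;> norm_num

/-- The hypothesis used: for all finite sets `V` some set `B` without two points at a distance in `D`
contains at least the proportion `a` of the points of `V`. -/
def Dense (D : Set ℝ) (a : ℝ) : Prop :=
  ∀ V : Finset ℂ, V.Nonempty → ∃ B : Set ℂ, (∀ x ∈ B, ∀ y ∈ B, ‖x - y‖ ∉ D) ∧
    a * V.card ≤ ({v | v ∈ V ∧ v ∈ B} : Set ℂ).ncard

theorem kSet_nonempty (D : Set ℝ) (a : ℝ) (H : Dense D a) : (KSet D a).Nonempty := by
  classical
  let C : ℂ × ℕ → Set (ℂ × ℂ → ℝ) := fun p => {K | a - 1 / (p.2 + 1) ≤ K (p.1, p.1)}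
  have hC : ∀ p, IsClosed (C p) := fun p => isClosed_le continuous_const (continuous_ev _)
  have hfip : ∀ u : Finset (ℂ × ℕ), (KSet D 0 ∩ ⋂ p ∈ u, C p).Nonempty := by
    intro u
    set N := u.sup Prod.snd with hN
    obtain ⟨V, hV, hVS⟩ := folner (u.image Prod.fst) (1 / ((N : ℝ) + 1)) (by positivity)
    obtain ⟨B, hBD, hBV⟩ := H V hV
    have hVc : (0 : ℝ) < V.card := by exact_mod_cast Finset.card_pos.2 hV
    let Kt : ℂ → ℂ × ℂ → ℝ := fun v p => ker B (p.1 + v, p.2 + v)
    have hKt : ∀ v, Kt v ∈ KSet D 0 := fun v =>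
      kSet_comp D 0 (fun x => x + v) (add_left_injective v) (fun x y => by simp) _
        (ker_mem D B hBD)
    refine ⟨∑ v ∈ V, (1 / (V.card : ℝ)) • Kt v, ?_, ?_⟩
    · refine (kSet_convex D 0).sum_mem (fun _ _ => by positivity) ?_ (fun v _ => hKt v)
      rw [Finset.sum_const, nsmul_eq_mul]
      field_simp
    · rw [Set.mem_iInter₂]
      rintro ⟨x, n⟩ hp
      change a - 1 / ((n : ℝ) + 1) ≤ (∑ v ∈ V, (1 / (V.card : ℝ)) • Kt v) (x, x)
      have hx : x ∈ u.image Prod.fst := Finset.mem_image.2 ⟨_, hp, rfl⟩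
      have hn : n ≤ N := Finset.le_sup (f := Prod.snd) hp
      have h1 : (∑ v ∈ V, (1 / (V.card : ℝ)) • Kt v) (x, x)
          = ((V.filter (fun v => x + v ∈ B)).card : ℝ) / V.card := by
        rw [Finset.sum_apply]
        simp only [Pi.smul_apply, smul_eq_mul]
        rw [← Finset.mul_sum, one_div, inv_mul_eq_div]
        congr 1
        rw [Finset.card_filter]
        push_cast
        refine Finset.sum_congr rfl fun v _ => ?_
        simp only [Kt, ker]
        split_ifs <;> norm_num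
      rw [h1]
      have h2 := hVS x hx
      have h3 : ({v | v ∈ V ∧ v ∈ B} : Set ℂ).ncard = (V.filter (fun v => v ∈ B)).card := by
        rw [← Set.ncard_coe_finset]
        congr 1
        ext v
        simp
      rw [h3] at hBV
      have h4 : V.filter (fun v => v ∈ B) ⊆ V.filter (fun v => v - x ∉ V) ∪
          (V.filter (fun v => x + v ∈ B)).image (fun v => x + v) := by
        intro v hv
        rw [Finset.mem_filter] at hv
        rw [Finset.mem_union]
        by_cases h : v - x ∈ V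
        · right
          refine Finset.mem_image.2 ⟨v - x, ?_, by ring⟩
          rw [Finset.mem_filter]
          refine ⟨h, ?_⟩
          have : x + (v - x) = v := by ring
          rw [this]
          exact hv.2
        · left
          rw [Finset.mem_filter]
          exact ⟨hv.1, h⟩
      have h5 : ((V.filter (fun v => v ∈ B)).card : ℝ) ≤ (V.filter (fun v => v - x ∉ V)).card
          + (V.filter (fun v => x + v ∈ B)).card := by
        have h6 := (Finset.card_le_card h4).trans (Finset.card_union_le _ _)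
        have h7 := Finset.card_image_le (s := V.filter (fun v => x + v ∈ B)) (f := fun v => x + v)
        exact_mod_cast h6.trans (by omega)
      rw [le_div_iff₀ hVc]
      have h8 : 1 / ((N : ℝ) + 1) ≤ 1 / ((n : ℝ) + 1) := by
        apply one_div_le_one_div_of_le (by positivity)
        have : (n : ℝ) ≤ N := by exact_mod_cast hn
        linarith
      have h9 := mul_le_mul_of_nonneg_right h8 hVc.le
      rw [sub_mul]
      linarith
  obtain ⟨K, hK, hKC⟩ := (kSet_compact D 0).inter_iInter_nonempty C hC hfip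
  refine ⟨K, hK.1, hK.2.1, hK.2.2.1, hK.2.2.2.1, fun x => ?_⟩
  rw [Set.mem_iInter] at hKC
  by_contra hlt
  push Not at hlt
  obtain ⟨n, hn⟩ := exists_nat_one_div_lt (show (0 : ℝ) < a - K (x, x) by linarith)
  have := hKC (x, n)
  change a - 1 / ((n : ℝ) + 1) ≤ K (x, x) at this
  linarith

/-- From density to an invariant positive definite function of mean zero. -/
theorem exists_phi (D : Set ℝ) (a : ℝ) (ha : 0 < a) (H : Dense D a) :
    ∃ (φ : ℂ → ℝ) (v : ℝ), v < 0 ∧ PD φ ∧ MeanZero φ ∧
      (∀ u x : ℂ, ‖u‖ = 1 → φ (u * x) = φ x) ∧ ∀ z : ℂ, ‖z‖ ∈ D → φ z = v := by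
  classical
  -- translations
  let σ : ℂ → ℂ × ℂ → ℂ × ℂ := fun a p => (p.1 + a, p.2 + a)
  obtain ⟨K1, hK1, hK1i⟩ := exists_invariant σ (fun i j x => by simp [σ]; constructor <;> ring)
    (KSet D a) 1 (kSet_nonempty D a H) (kSet_closed D a) (kSet_convex D a) (fun f hf x => hf.1 x)
    (fun z K hK => kSet_comp D a (fun x => x + z) (add_left_injective z)
      (fun x y => by simp) K hK)
  -- rotations
  let K2 : Set (ℂ × ℂ → ℝ) := KSet D a ∩ {K | ∀ a p, K (σ a p) = K p}
  have hcl2 : IsClosed {K : ℂ × ℂ → ℝ | ∀ a p, K (σ a p) = K p} := by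
    simp only [Set.ofPred_forall]
    exact isClosed_iInter fun x => isClosed_iInter fun y =>
      isClosed_eq (continuous_ev _) (continuous_ev _)
  have hcv2 : Convex ℝ {K : ℂ × ℂ → ℝ | ∀ a p, K (σ a p) = K p} := by
    intro K hK L hL a b _ _ _ z p
    simp only [Pi.add_apply, Pi.smul_apply, smul_eq_mul]
    rw [hK z p, hL z p]
  let J := {u : ℂ // ‖u‖ = 1}
  have hJ0 : ∀ u : J, (u : ℂ) ≠ 0 := by
    rintro ⟨u, hu⟩ h0
    simp only at h0
    rw [h0, norm_zero] at hu
    norm_num at hu
  let τ : J → ℂ × ℂ → ℂ × ℂ := fun u p => (u * p.1, u * p.2)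
  obtain ⟨K, hK, hKi⟩ := exists_invariant τ (fun i j x => by simp [τ]; constructor <;> ring)
    K2 1 ⟨K1, hK1, hK1i⟩ ((kSet_closed D a).inter hcl2) ((kSet_convex D a).inter hcv2)
    (fun f hf x => hf.1.1 x)
    (fun u L hL => by
      refine ⟨kSet_comp D a (fun x => u * x) (mul_right_injective₀ (hJ0 u)) ?_ L hL.1, ?_⟩
      · intro x y
        rw [← mul_sub, norm_mul, u.2, one_mul]
      · intro z p
        have := hL.2 (u * z) (u * p.1, u * p.2)
        simp only [σ, τ] at this ⊢
        rw [mul_add, mul_add]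
        exact this)
  obtain ⟨⟨hb, hs, hq, hedge, hdiag⟩, htr⟩ := hK
  have hdiff : ∀ x y, K (x - y, 0) = K (x, y) := by
    intro x y
    have := htr (-y) (x, y)
    simp only [σ] at this
    rw [← this]
    congr 2
    ring
  set m := K (0, 0) with hm
  have hm0 : 0 < m := lt_of_lt_of_le ha (hdiag 0)
  have hd0 : ∀ x, K (x, x) = m := by
    intro x
    rw [← hdiff x x, sub_self]
  let φ1 : ℂ → ℝ := fun x => K (x, 0) - m ^ 2
  have hPD1 : PD φ1 := by
    refine ⟨fun x => ?_, fun s u => ?_⟩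
    · simp only [φ1]
      have h1 := hdiff 0 x
      rw [zero_sub] at h1
      rw [h1, hs]
    · have h1 := hq s u
      have h2 : ∑ x ∈ s, ∑ y ∈ s, u x * u y * φ1 (x - y)
          = ∑ x ∈ s, ∑ y ∈ s, u x * u y * K (x, y) - (∑ x ∈ s, u x * K (x, x)) ^ 2 := by
        rw [sq, Finset.sum_mul_sum, ← Finset.sum_sub_distrib]
        refine Finset.sum_congr rfl fun x _ => ?_
        rw [← Finset.sum_sub_distrib]
        refine Finset.sum_congr rfl fun y _ => ?_
        simp only [φ1, hdiff, hd0]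
        ring
      rw [h2]
      linarith
  obtain ⟨d, hd, hPD, hMZ⟩ := exists_meanZero φ1 hPD1
  refine ⟨_, -(m ^ 2) - d, ?_, hPD, hMZ, ?_, ?_⟩
  · have : 0 < m ^ 2 := by positivity
    linarith
  · intro u x hu
    have := hKi ⟨u, hu⟩ (x, 0)
    simp only [τ, mul_zero] at this
    simp only [φ1, this]
  · intro z hz
    have h1 : K (z, 0) = 0 := hedge z 0 (by simpa using hz)
    simp only [φ1, h1]
    ring

end Pool.Agent.KS6_20.GP
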