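import Pool.Agent.KS6_20.GP.Kernel

/-!
# Families of points along a sequence of scales

`s n` is the `n`-th radius.  A family `x` gives a point `x n t` for every index `n` and every real
parameter `t`; only parameters `t n` with `t n / s n → 0` matter.
-/

set_option autoImplicit false

namespace Pool.Agent.KS6_20.GP

open Finset Filter Topology
open Pool.Agent.H235R3.PT (exists_invariant PD MeanZero continuous_ev norm_sum_sq PD.abs_le)

/-- families of points of the plane with a radius index and a real parameter -/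
abbrev Fam := ℕ → ℝ → ℂ

/-- the admissible parameters: `b n / s n → 0` -/
def Small (s b : ℕ → ℝ) : Prop := Tendsto (fun n => b n / s n) atTop (𝓝 0)

theorem small_zero (s : ℕ → ℝ) : Small s (fun _ => 0) := by
  unfold Small; simp

theorem Small.add {s b c : ℕ → ℝ} (hb : Small s b) (hc : Small s c) :
    Small s (fun n => b n + c n) := by
  unfold Small at *
  simpa [add_div] using Tendsto.add hb hc

theorem Small.mul {s b : ℕ → ℝ} (hb : Small s b) (l : ℝ) : Small s (fun n => l * b n) := by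
  unfold Small at *
  simpa [mul_div_assoc] using Tendsto.const_mul l hb

/-- eventually equal lengths, for all admissible parameters -/
def Rel (s : ℕ → ℝ) (x y : Fam) : Prop :=
  ∀ t, Small s t → ∀ᶠ n in atTop, ‖x n (t n)‖ = ‖y n (t n)‖

structure Good (s : ℕ → ℝ) (φ : ℂ → ℝ) (v : ℝ) (Ψ : Fam → ℝ) : Prop where
  pd : PD Ψ
  rel : ∀ x y, Rel s x y → Ψ x = Ψ y
  const : ∀ z : ℂ, Ψ (fun _ _ => z) = φ z
  circle : ∀ x : Fam, (∀ n t, ‖x n t‖ = s n) → Ψ x = v
  shift : ∀ b, Small s b → ∀ x : Fam, Ψ (fun n t => x n (t + b n)) = Ψ x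
  scale : ∀ l : ℝ, 0 < l → ∀ x : Fam, Ψ (fun n t => x n (l * t)) = Ψ x

theorem phi_norm {φ : ℂ → ℝ} (hinv : ∀ u x : ℂ, ‖u‖ = 1 → φ (u * x) = φ x)
    (x y : ℂ) (h : ‖x‖ = ‖y‖) : φ x = φ y := by
  by_cases hy : y = 0
  · have : ‖x‖ = 0 := by rw [h, hy]; simp
    rw [norm_eq_zero.mp this, hy]
  have hy' : ‖y‖ ≠ 0 := norm_ne_zero_iff.mpr hy
  have h1 : ‖x / y‖ = 1 := by rw [norm_div, h, div_self hy']
  have := hinv (x / y) y h1
  rwa [div_mul_cancel₀ _ hy] at this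

/-- the compact convex set in which the invariant extension is found -/
def ExtSet (s : ℕ → ℝ) (φ : ℂ → ℝ) (v : ℝ) : Set (Fam → ℝ) :=
  {Ψ | (∀ x, |Ψ x| ≤ φ 0) ∧ ((∀ x, Ψ (-x) = Ψ x) ∧
    ∀ (S : Finset Fam) (u : Fam → ℝ), 0 ≤ ∑ x ∈ S, ∑ y ∈ S, u x * u y * Ψ (x - y)) ∧
    (∀ x y, Rel s x y → Ψ x = Ψ y) ∧ (∀ z : ℂ, Ψ (fun _ _ => z) = φ z) ∧
    ∀ x : Fam, (∀ n t, ‖x n t‖ = s n) → Ψ x = v}

theorem extSet_closed (s : ℕ → ℝ) (φ : ℂ → ℝ) (v : ℝ) : IsClosed (ExtSet s φ v) := by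
  have e1 : IsClosed {Ψ : Fam → ℝ | ∀ x, |Ψ x| ≤ φ 0} := by
    simp only [Set.ofPred_forall]
    exact isClosed_iInter fun p => isClosed_le (continuous_ev p).abs continuous_const
  have e2 : IsClosed {Ψ : Fam → ℝ | ∀ x, Ψ (-x) = Ψ x} := by
    simp only [Set.ofPred_forall]
    exact isClosed_iInter fun x => isClosed_eq (continuous_ev _) (continuous_ev _)
  have e3 : IsClosed {Ψ : Fam → ℝ | ∀ (s : Finset Fam) (u : Fam → ℝ),
      0 ≤ ∑ x ∈ s, ∑ y ∈ s, u x * u y * Ψ (x - y)} := by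
    simp only [Set.ofPred_forall]
    refine isClosed_iInter fun s => isClosed_iInter fun u => isClosed_le continuous_const ?_
    refine continuous_finsetSum _ fun x _ => continuous_finsetSum _ fun y _ => ?_
    exact continuous_const.mul (continuous_ev _)
  have e4 : IsClosed {Ψ : Fam → ℝ | ∀ x y, Rel s x y → Ψ x = Ψ y} := by
    simp only [Set.ofPred_forall]
    exact isClosed_iInter fun x => isClosed_iInter fun y => isClosed_iInter fun _ =>
      isClosed_eq (continuous_ev _) (continuous_ev _)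
  have e5 : IsClosed {Ψ : Fam → ℝ | ∀ z : ℂ, Ψ (fun _ _ => z) = φ z} := by
    simp only [Set.ofPred_forall]
    exact isClosed_iInter fun x => isClosed_eq (continuous_ev _) continuous_const
  have e6 : IsClosed {Ψ : Fam → ℝ | ∀ x : Fam, (∀ n t, ‖x n t‖ = s n) → Ψ x = v} := by
    simp only [Set.ofPred_forall]
    exact isClosed_iInter fun x => isClosed_iInter fun _ =>
      isClosed_eq (continuous_ev _) continuous_const
  exact e1.inter ((e2.inter e3).inter (e4.inter (e5.inter e6)))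

theorem extSet_convex (s : ℕ → ℝ) (φ : ℂ → ℝ) (v : ℝ) : Convex ℝ (ExtSet s φ v) := by
  intro K hK L hL a b ha hb hab
  refine ⟨fun p => ?_, ⟨fun x => ?_, fun s u => ?_⟩, fun x y h => ?_, fun z => ?_, fun x h => ?_⟩
  · simp only [Pi.add_apply, Pi.smul_apply, smul_eq_mul]
    calc |a * K p + b * L p| ≤ |a * K p| + |b * L p| := abs_add_le _ _
      _ = a * |K p| + b * |L p| := by rw [abs_mul, abs_mul, abs_of_nonneg ha, abs_of_nonneg hb]
      _ ≤ a * φ 0 + b * φ 0 := by gcongr; exact hK.1 p; exact hL.1 p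
      _ = φ 0 := by rw [← add_mul, hab, one_mul]
  · simp only [Pi.add_apply, Pi.smul_apply, smul_eq_mul]
    rw [hK.2.1.1 x, hL.2.1.1 x]
  · have h1 := hK.2.1.2 s u
    have h2 := hL.2.1.2 s u
    have h3 : ∑ x ∈ s, ∑ y ∈ s, u x * u y * (a • K + b • L) (x - y)
        = a * (∑ x ∈ s, ∑ y ∈ s, u x * u y * K (x - y))
          + b * (∑ x ∈ s, ∑ y ∈ s, u x * u y * L (x - y)) := by
      simp only [Pi.add_apply, Pi.smul_apply, smul_eq_mul, Finset.mul_sum, ← Finset.sum_add_distrib]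
      refine Finset.sum_congr rfl fun x _ => Finset.sum_congr rfl fun y _ => ?_
      ring
    rw [h3]
    exact add_nonneg (mul_nonneg ha h1) (mul_nonneg hb h2)
  · simp only [Pi.add_apply, Pi.smul_apply, smul_eq_mul]
    rw [hK.2.2.1 x y h, hL.2.2.1 x y h]
  · simp only [Pi.add_apply, Pi.smul_apply, smul_eq_mul]
    rw [hK.2.2.2.1 z, hL.2.2.2.1 z, ← add_mul, hab, one_mul]
  · simp only [Pi.add_apply, Pi.smul_apply, smul_eq_mul]
    rw [hK.2.2.2.2 x h, hL.2.2.2.2 x h, ← add_mul, hab, one_mul]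

theorem extSet_comp (s : ℕ → ℝ) (φ : ℂ → ℝ) (v : ℝ) (g : ℕ → ℝ → ℝ) (Ψ : Fam → ℝ)
    (h : Ψ ∈ ExtSet s φ v) (hsurj : ∀ n, Function.Surjective (g n))
    (hsmall : ∀ t, Small s t → Small s (fun n => g n (t n))) :
    (fun x : Fam => Ψ (fun n t => x n (g n t))) ∈ ExtSet s φ v := by
  classical
  let G : Fam → Fam := fun x n t => x n (g n t)
  have hG : Function.Injective G := by
    intro x y hxy
    funext n t
    obtain ⟨r, rfl⟩ := hsurj n t
    exact congrFun (congrFun hxy n) r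
  refine ⟨fun x => h.1 _, ⟨fun x => ?_, fun s u => ?_⟩, fun x y hxy => ?_, fun z => ?_,
    fun x hx => ?_⟩
  · exact h.2.1.1 (G x)
  · have h1 := h.2.1.2 (s.image G) (fun z => u (Function.invFun G z))
    have hinv : ∀ x, Function.invFun G (G x) = x := Function.leftInverse_invFun hG
    simp only [Finset.sum_image (fun x _ y _ h => hG h), hinv] at h1
    exact h1
  · refine h.2.2.1 _ _ fun t ht => ?_
    exact hxy _ (hsmall t ht)
  · exact h.2.2.2.1 z
  · exact h.2.2.2.2 _ fun n t => hx n _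

theorem extSet_nonempty (s : ℕ → ℝ) (φ : ℂ → ℝ) (v : ℝ) (hφ : PD φ)
    (hinv : ∀ u x : ℂ, ‖u‖ = 1 → φ (u * x) = φ x)
    (hv : ∀ z : ℂ, (∃ n, ‖z‖ = s n) → φ z = v) : (ExtSet s φ v).Nonempty := by
  classical
  let 𝒰 : Ultrafilter ℕ := hyperfilter ℕ
  have h𝒰 : (𝒰 : Filter ℕ) ≤ atTop := by
    rw [← Nat.cofinite_eq_atTop]
    exact hyperfilter_le_cofinite
  let F : ℕ → Fam → ℝ := fun n x => φ (x n 0)
  have hcube : IsCompact (Set.pi Set.univ (fun _ : Fam => Set.Icc (-(φ 0)) (φ 0))) :=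
    isCompact_univ_pi (fun _ => isCompact_Icc)
  have hle : (𝒰.map F : Filter (Fam → ℝ)) ≤
      𝓟 (Set.pi Set.univ (fun _ : Fam => Set.Icc (-(φ 0)) (φ 0))) := by
    rw [le_principal_iff]
    refine Filter.mem_map.mpr (Filter.univ_mem' fun n x _ => ?_)
    exact abs_le.mp (hφ.abs_le _)
  obtain ⟨Ψ, _, hΨ⟩ := hcube.ultrafilter_le_nhds (𝒰.map F) hle
  have hT : Tendsto F 𝒰 (𝓝 Ψ) := hΨ
  have hx : ∀ x, Tendsto (fun n => φ (x n 0)) 𝒰 (𝓝 (Ψ x)) := fun x =>
    (tendsto_pi_nhds.mp hT) x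
  refine ⟨Ψ, fun x => ?_, ⟨fun x => ?_, fun S u => ?_⟩, fun x y h => ?_, fun z => ?_,
    fun x h => ?_⟩
  · exact le_of_tendsto (hx x).abs (Eventually.of_forall fun n => hφ.abs_le _)
  · refine tendsto_nhds_unique (hx (-x)) ?_
    refine (hx x).congr fun n => ?_
    simp only [Pi.neg_apply]
    exact (hφ.symm _).symm
  · have ht : Tendsto (fun n => ∑ x ∈ S, ∑ y ∈ S, u x * u y * φ (x n 0 - y n 0)) 𝒰
        (𝓝 (∑ x ∈ S, ∑ y ∈ S, u x * u y * Ψ (x - y))) := by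
      refine tendsto_finsetSum _ fun x _ => tendsto_finsetSum _ fun y _ => ?_
      exact (hx (x - y)).const_mul _
    refine ge_of_tendsto ht (Eventually.of_forall fun n => ?_)
    have hF : Fact (PD φ) := ⟨hφ⟩
    have h1 := norm_sum_sq (φ := φ) S u (fun x => x n 0)
    rw [← h1]
    positivity
  · refine tendsto_nhds_unique (hx x) ?_
    refine (hx y).congr' ?_
    filter_upwards [h𝒰 (h (fun _ => 0) (small_zero s))] with n hn
    exact (phi_norm hinv _ _ hn).symm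
  · exact tendsto_nhds_unique (hx _) tendsto_const_nhds
  · refine tendsto_nhds_unique (hx x) ?_
    exact (tendsto_const_nhds (x := v)).congr fun n => (hv _ ⟨n, h n 0⟩).symm

theorem exists_good (s : ℕ → ℝ) (φ : ℂ → ℝ) (v : ℝ) (hφ : PD φ)
    (hinv : ∀ u x : ℂ, ‖u‖ = 1 → φ (u * x) = φ x)
    (hv : ∀ z : ℂ, (∃ n, ‖z‖ = s n) → φ z = v) : ∃ Ψ, Good s φ v Ψ := by
  let σ : {b : ℕ → ℝ // Small s b} → Fam → Fam := fun b x n t => x n (t + b.1 n)
  obtain ⟨Ψ1, h1, h1i⟩ := exists_invariant σ (fun i j x => by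
      funext n t; simp only [σ]; congr 1; ring)
    (ExtSet s φ v) (φ 0) (extSet_nonempty s φ v hφ hinv hv) (extSet_closed s φ v)
    (extSet_convex s φ v) (fun f hf x => hf.1 x)
    (fun b Ψ hΨ => extSet_comp s φ v (fun n t => t + b.1 n) Ψ hΨ
      (fun n => add_right_surjective (b.1 n)) (fun t ht => ht.add b.2))
  let K2 : Set (Fam → ℝ) := ExtSet s φ v ∩ {Ψ | ∀ b x, Ψ (σ b x) = Ψ x}
  have hcl2 : IsClosed {Ψ : Fam → ℝ | ∀ b x, Ψ (σ b x) = Ψ x} := by
    simp only [Set.ofPred_forall]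
    exact isClosed_iInter fun x => isClosed_iInter fun y =>
      isClosed_eq (continuous_ev _) (continuous_ev _)
  have hcv2 : Convex ℝ {Ψ : Fam → ℝ | ∀ b x, Ψ (σ b x) = Ψ x} := by
    intro K hK L hL a b _ _ _ z p
    simp only [Pi.add_apply, Pi.smul_apply, smul_eq_mul]
    rw [hK z p, hL z p]
  let τ : {l : ℝ // 0 < l} → Fam → Fam := fun l x n t => x n (l * t)
  obtain ⟨Ψ, hΨ, hΨi⟩ := exists_invariant τ (fun i j x => by
      funext n t; simp only [τ]; congr 1; ring)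
    K2 (φ 0) ⟨Ψ1, h1, h1i⟩ ((extSet_closed s φ v).inter hcl2) ((extSet_convex s φ v).inter hcv2)
    (fun f hf x => hf.1.1 x)
    (fun l Ψ hΨ => by
      have hl : (l : ℝ) ≠ 0 := l.2.ne'
      refine ⟨extSet_comp s φ v (fun _ t => l * t) Ψ hΨ.1 (fun _ => mul_left_surjective₀ hl)
        (fun t ht => ht.mul _), ?_⟩
      intro b x
      have := hΨ.2 ⟨fun n => (l : ℝ)⁻¹ * b.1 n, b.2.mul _⟩ (τ l x)
      simp only [σ, τ] at this ⊢
      rw [← this]
      congr 1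
      funext n t
      congr 1
      field_simp)
  refine ⟨Ψ, ⟨⟨hΨ.1.2.1.1, hΨ.1.2.1.2⟩, hΨ.1.2.2.1, hΨ.1.2.2.2.1, hΨ.1.2.2.2.2,
    fun b hb x => hΨ.2 ⟨b, hb⟩ x, ?_⟩⟩
  intro l hl x
  exact hΨi ⟨l, hl⟩ x

end Pool.Agent.KS6_20.GP
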