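import Pool.Agent.KS6_20.GP.Lift

/-!
# Polynomial families

The differencing steps use shifts which depend on the scale.
-/

set_option autoImplicit false

namespace Pool.Agent.KS6_20.GP

open Finset Filter Topology Polynomial
open Pool.Agent.H235R3.PT (PD MeanZero LineZero zero_of_families taylor_sub vdc PD.zero_nonneg)

/-- Families given by polynomials of degree at most `m + 1` whose top coefficient `c n` satisfies
`|c n| s n ^ (m + 1) → ∞`. -/
theorem polyNull {s : ℕ → ℝ} (hs0 : ∀ n, 0 < s n) {φ : ℂ → ℝ} {v : ℝ} {Ψ : Fam → ℝ}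
    (hG : Good s φ v Ψ) (hL : LineZero φ) :
    ∀ (m : ℕ) (q : ℕ → ℂ[X]), (∀ n, (q n).natDegree ≤ m + 1) →
      Tendsto (fun n => ‖(q n).coeff (m + 1)‖ * s n ^ (m + 1)) atTop atTop →
      Ψ (fun n t => (q n).eval (t : ℂ)) = 0 := by
  intro m
  induction m with
  | zero =>
    intro q hdeg hco
    set x : Fam := fun n t => (q n).eval (t : ℂ) with hx
    set c : ℕ → ℂ := fun n => (q n).coeff 1 with hc
    have hco' : Tendsto (fun n => ‖c n‖ * s n) atTop atTop := by
      refine hco.congr fun n => ?_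
      simp [hc]
    have h0 := hG.pd.zero_nonneg
    have hsm : ∀ r : ℝ, Small s (fun n => r / ‖c n‖) := by
      intro r
      unfold Small
      refine (hco'.const_div_atTop r).congr fun n => ?_
      rw [div_div]
    have hev : ∀ᶠ n in atTop, 0 < ‖c n‖ := by
      filter_upwards [hco'.eventually_gt_atTop 0] with n hn
      exact pos_of_mul_pos_left hn (hs0 n).le
    have key : ∀ ε > 0, Ψ x ^ 2 ≤ ε := by
      intro ε hε
      obtain ⟨ι, hι, p, r, hp, hp1, hlt⟩ := hL (ε / (Ψ 0 + 1)) (by positivity)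
      have h1 := vdc hG.pd (Finset.univ : Finset ι) p
        (fun i => (fun n t => x n (t + r i / ‖c n‖) : Fam))
      have h2 : ∑ i, p i * Ψ (fun n t => x n (t + r i / ‖c n‖)) = Ψ x := by
        rw [Finset.sum_congr rfl (fun i _ => by rw [hG.shift _ (hsm (r i)) x])]
        rw [← Finset.sum_mul, hp1, one_mul]
      have h3 : ∀ i j, Ψ ((fun n t => x n (t + r i / ‖c n‖) : Fam)
          - (fun n t => x n (t + r j / ‖c n‖))) = φ ((r i - r j : ℝ) : ℂ) := by
        intro i j
        rw [← hG.const]
        refine hG.rel _ _ fun t _ => ?_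
        filter_upwards [hev] with n hn
        have h4 : ∀ z : ℂ, (q n).eval z = (q n).coeff 0 + c n * z := by
          intro z
          rw [eval_eq_sum_range' (show (q n).natDegree < 2 by have := hdeg n; omega)]
          rw [Finset.sum_range_succ, Finset.sum_range_one]
          simp [hc]
        simp only [Pi.sub_apply, hx, h4]
        have h5 : (q n).coeff 0 + c n * ((t n + r i / ‖c n‖ : ℝ) : ℂ) -
            ((q n).coeff 0 + c n * ((t n + r j / ‖c n‖ : ℝ) : ℂ))
            = (c n / (‖c n‖ : ℝ)) * ((r i - r j : ℝ) : ℂ) := by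
          push_cast
          have : ((‖c n‖ : ℝ) : ℂ) ≠ 0 := by exact_mod_cast hn.ne'
          field_simp
          ring
        rw [h5, norm_mul, norm_div, Complex.norm_real, norm_norm, div_self hn.ne', one_mul]
      rw [h2] at h1
      simp only [h3] at h1
      calc Ψ x ^ 2 ≤ _ := h1
        _ ≤ (ε / (Ψ 0 + 1)) * Ψ 0 := mul_le_mul_of_nonneg_right hlt.le h0
        _ ≤ ε := by
            have : ε / (Ψ 0 + 1) * Ψ 0 = ε * (Ψ 0 / (Ψ 0 + 1)) := by field_simp
            rw [this]
            have : Ψ 0 / (Ψ 0 + 1) ≤ 1 := by rw [div_le_one (by positivity)]; linarith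
            nlinarith
    by_contra hne
    have hpos : 0 < Ψ x ^ 2 := by positivity
    have := key (Ψ x ^ 2 / 2) (by positivity)
    linarith
  | succ m ih =>
    intro q hdeg hco
    set ω : ℕ → ℝ := fun n => ‖(q n).coeff (m + 1 + 1)‖ * s n ^ (m + 1 + 1) with hω
    have hsq : Tendsto (fun n => Real.sqrt (ω n)) atTop atTop :=
      Real.tendsto_sqrt_atTop.comp hco
    set h : ℕ → ℝ := fun n => s n / Real.sqrt (ω n) with hh
    have hsm : Small s h := by
      unfold Small
      refine (hsq.const_div_atTop 1).congr fun n => ?_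
      have := (hs0 n).ne'
      simp only [hh]
      field_simp
    refine zero_of_families hG.pd _ fun N _ => ?_
    refine ⟨fun i => fun n t => (q n).eval (((t + (i : ℝ) * h n : ℝ)) : ℂ), fun i _ => ?_,
      fun i _ j _ hij => ?_⟩
    · exact hG.shift _ (hsm.mul (i : ℝ)) (fun n t => (q n).eval (t : ℂ))
    · have h1 : ((fun n t => (q n).eval (((t + (i : ℝ) * h n : ℝ)) : ℂ) : Fam) -
          (fun n t => (q n).eval (((t + (j : ℝ) * h n : ℝ)) : ℂ)))
          = fun n (t : ℝ) => (taylor ((i : ℂ) * h n) (q n)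
            - taylor ((j : ℂ) * h n) (q n)).eval (t : ℂ) := by
        funext n t
        simp only [Pi.sub_apply, eval_sub, taylor_eval]
        push_cast
        rfl
      rw [h1]
      refine ih (fun n => taylor ((i : ℂ) * h n) (q n) - taylor ((j : ℂ) * h n) (q n)) ?_ ?_
      · intro n
        exact (taylor_sub (m + 1) (q n) (hdeg n) _ _).1
      · have hij' : (0 : ℝ) < ‖(i : ℂ) - j‖ :=
          norm_pos_iff.mpr (sub_ne_zero.mpr (by exact_mod_cast hij))
        have hlim := hsq.const_mul_atTop
          (show (0 : ℝ) < (m + 1 + 1) * ‖(i : ℂ) - j‖ by positivity)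
        refine hlim.congr' ?_
        filter_upwards [hsq.eventually_gt_atTop 0] with n hn
        rw [(taylor_sub (m + 1) (q n) (hdeg n) _ _).2]
        have h2 : (((m + 1 : ℕ) : ℂ) + 1) * ((i : ℂ) * h n - j * h n) * (q n).coeff (m + 1 + 1)
            = ((m + 1 + 1 : ℝ) : ℂ) * ((i : ℂ) - j) * ((h n : ℝ) : ℂ)
              * (q n).coeff (m + 1 + 1) := by
          push_cast; ring
        rw [h2, norm_mul, norm_mul, norm_mul, Complex.norm_real, Complex.norm_real,
          Real.norm_of_nonneg (by positivity : (0 : ℝ) ≤ m + 1 + 1)]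
        have hhn : 0 ≤ h n := by
          simp only [hh]
          have := (hs0 n).le
          positivity
        rw [Real.norm_of_nonneg hhn]
        have h3 : h n * ‖(q n).coeff (m + 1 + 1)‖ * s n ^ (m + 1) = Real.sqrt (ω n) := by
          have h4 : Real.sqrt (ω n) * Real.sqrt (ω n) = ω n := by
            apply Real.mul_self_sqrt
            have := hs0 n
            simp only [hω]
            positivity
          have h5 : h n * ‖(q n).coeff (m + 1 + 1)‖ * s n ^ (m + 1) = ω n / Real.sqrt (ω n) := by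
            simp only [hh, hω]
            rw [pow_succ (s n) (m + 1)]
            ring
          rw [h5, div_eq_iff hn.ne', h4]
        calc (m + 1 + 1) * ‖(i : ℂ) - j‖ * Real.sqrt (ω n)
            = (m + 1 + 1) * ‖(i : ℂ) - j‖ * (h n * ‖(q n).coeff (m + 1 + 1)‖ * s n ^ (m + 1)) := by
              rw [h3]
          _ = _ := by ring

/-- Scaled polynomial families. -/
theorem scaledNull {s : ℕ → ℝ} (hs0 : ∀ n, 0 < s n) (hs : Tendsto s atTop atTop)
    {φ : ℂ → ℝ} {v : ℝ} {Ψ : Fam → ℝ} (hG : Good s φ v Ψ) (hL : LineZero φ) (P : ℂ[X])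
    (hP : 1 ≤ P.natDegree) :
    Ψ (fun n t => (s n : ℂ) * P.eval ((t : ℂ) / s n)) = 0 := by
  obtain ⟨m, hm⟩ : ∃ m, P.natDegree = m + 1 := ⟨P.natDegree - 1, by omega⟩
  have h1 := polyNull hs0 hG hL m (fun n => C (s n : ℂ) * P.comp (C ((s n : ℂ)⁻¹) * X)) ?_ ?_
  · rw [← h1]
    congr 1
    funext n t
    simp only [eval_mul, eval_C, eval_comp, eval_X]
    rw [div_eq_mul_inv, mul_comm (t : ℂ)]
  · intro n
    refine (natDegree_C_mul_le _ _).trans ?_
    refine (natDegree_comp_le).trans ?_
    have : (C ((s n : ℂ)⁻¹) * X : ℂ[X]).natDegree ≤ 1 :=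
      (natDegree_C_mul_le _ _).trans natDegree_X_le
    calc P.natDegree * (C ((s n : ℂ)⁻¹) * X : ℂ[X]).natDegree ≤ P.natDegree * 1 := by gcongr
      _ = m + 1 := by rw [hm, mul_one]
  · have hp : 0 < ‖P.coeff (m + 1)‖ := by
      rw [norm_pos_iff, ← hm, coeff_natDegree, Ne, leadingCoeff_eq_zero]
      intro h0
      rw [h0] at hm
      simp at hm
    refine (hs.const_mul_atTop hp).congr fun n => ?_
    have hsn := hs0 n
    rw [coeff_C_mul, comp_C_mul_X_coeff, norm_mul, norm_mul, norm_pow, norm_inv,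
      Complex.norm_real, Real.norm_of_nonneg hsn.le, inv_pow]
    field_simp

end Pool.Agent.KS6_20.GP
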